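import Pool.Agent.helper74.VD.SpecI
import Pool.Agent.helper80.VD.SpecF

/-!
# Project VD (MP_07c750_an), block A0, row ALFX: the lift and the flow
-/

set_option autoImplicit false

open scoped ContDiff Topology InnerProductSpace ComplexConjugate ENNReal
open MeasureTheory Filter Set

namespace Pool.Agent.VD

noncomputable section

theorem ALFX_proof (hGLF : GLF_stmt) (hGHL : GHL_stmt) (hGMP : GMP_stmt) (hGUN : GUN_stmt) (hGEQ : GEQ_stmt) (hGSY : GSY_stmt) :
    ALFX_stmt := by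
  intro d Γ _ _ K k B G Φ h
  have hs := h.fd.smooth
  obtain ⟨l1, l2, l3, -, l5, -, l7, -⟩ := hGLF d Γ hs
  obtain ⟨h1, -⟩ := hGHL d Γ G h.cls.met hs h.cls.isom
  obtain ⟨-, -, u3, -⟩ := hGUN d G Φ h.cls.met h.flow
  obtain ⟨s1, -, s3⟩ := hGSY d G Φ h.cls.met h.flow
  exact ⟨l3, l1, l2, hGMP d Γ hs, fun γ p => (h1 γ p).1,
    fun γ t p => hGEQ d Γ G Φ h.cls.met hs h.cls.isom h.flow γ t p, fun t p => (u3 t p).1, s3, l7, s1, l5⟩

end

end Pool.Agent.VD
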