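import Pool.Agent.helper47.VD.SpecA1

/-!
# Project VD (MP_07c750_an), block A1, row APLD: Plancherel
-/

set_option autoImplicit false

open scoped ContDiff Topology InnerProductSpace ComplexConjugate ENNReal
open MeasureTheory Filter Set

namespace Pool.Agent.VD

noncomputable section

open scoped FourierTransform SchwartzMap ContDiff in
/-- the `L²` Fourier transform is the integral -/
theorem APLD_ae {d : ℕ} (h : V d → ℂ) (h1 : Integrable h) (h2 : MemLp h 2) :
    ((𝓕 (h2.toLp h) : Lp ℂ 2 (volume : Measure (V d))) : V d → ℂ) =ᵐ[volume] 𝓕 h := by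
  have hc : Continuous (𝓕 h) := VectorFourier.fourierIntegral_continuous Real.continuous_fourierChar continuous_inner h1
  apply ae_eq_of_integral_contDiff_smul_eq
  · exact (Lp.memLp _).locallyIntegrable (by norm_num)
  · exact hc.locallyIntegrable
  · intro g hg hgc
    have hg₁ : HasCompactSupport (Complex.ofRealCLM ∘ g) := hgc.comp_left rfl
    have hg₂ : ContDiff ℝ ∞ (Complex.ofRealCLM ∘ g) := by fun_prop
    set φ : 𝓢(V d, ℂ) := hg₁.toSchwartzMap hg₂ with hφ
    have e0 : ∀ x, φ x = ((g x : ℝ) : ℂ) := fun x => rfl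
    have e1 : ∫ x, g x • ((𝓕 (h2.toLp h) : Lp ℂ 2 (volume : Measure (V d))) : V d → ℂ) x =
        Lp.toTemperedDistribution (𝓕 (h2.toLp h) : Lp ℂ 2 (volume : Measure (V d))) φ := by
      rw [Lp.toTemperedDistribution_apply]
      apply integral_congr_ae
      refine Filter.Eventually.of_forall fun x => ?_
      show g x • _ = φ x • _
      rw [e0, Complex.coe_smul]
    have e2 : Lp.toTemperedDistribution (𝓕 (h2.toLp h) : Lp ℂ 2 (volume : Measure (V d))) φ =
        Lp.toTemperedDistribution (h2.toLp h) (𝓕 φ) := by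
      rw [← Lp.fourier_toTemperedDistribution_eq]
      rfl
    have e3 : Lp.toTemperedDistribution (h2.toLp h) (𝓕 φ) = ∫ x, (𝓕 φ) x • h x := by
      rw [Lp.toTemperedDistribution_apply]
      apply integral_congr_ae
      filter_upwards [h2.coeFn_toLp] with x hx
      rw [hx]
    have e4 : ∫ x, (𝓕 φ) x • h x = ∫ x, φ x • (𝓕 h) x := by
      rw [SchwartzMap.fourier_coe]
      have h3 := VectorFourier.integral_fourierIntegral_smul_eq_flip (μ := volume) (ν := volume) (L := innerₗ (V d))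
        Real.continuous_fourierChar continuous_inner φ.integrable h1
      have h4 : (innerₗ (V d) : V d →ₗ[ℝ] V d →ₗ[ℝ] ℝ).flip = innerₗ (V d) := by
        refine LinearMap.ext fun x => LinearMap.ext fun y => ?_
        rw [LinearMap.flip_apply, innerₗ_apply_apply, innerₗ_apply_apply, real_inner_comm]
      rw [h4] at h3
      exact h3
    rw [e1, e2, e3, e4]
    apply integral_congr_ae
    refine Filter.Eventually.of_forall fun x => ?_
    show φ x • _ = g x • _
    rw [e0, Complex.coe_smul]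

theorem APLD_l2 {d : ℕ} (f : Lp ℂ 2 (volume : Measure (V d))) : ‖f‖ ^ 2 = ∫ x, ‖f x‖ ^ 2 := by
  have h1 : (inner ℂ f f : ℂ) = ((‖f‖ ^ 2 : ℝ) : ℂ) := by
    rw [inner_self_eq_norm_sq_to_K]
    push_cast
    rfl
  rw [L2.inner_def] at h1
  have h2 : ∀ x, (inner ℂ (f x) (f x) : ℂ) = ((‖f x‖ ^ 2 : ℝ) : ℂ) := by
    intro x
    rw [inner_self_eq_norm_sq_to_K]
    push_cast
    rfl
  simp_rw [h2] at h1
  rw [integral_complex_ofReal] at h1
  exact (Complex.ofReal_injective h1).symm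

open scoped FourierTransform in
theorem APLD_main {d : ℕ} (h : V d → ℂ) (h1 : Integrable h) (h2 : MemLp h 2) :
    Integrable (fun x => ‖(𝓕 h) x‖ ^ 2) ∧ ∫ x, ‖(𝓕 h) x‖ ^ 2 = ∫ x, ‖h x‖ ^ 2 := by
  have hae := APLD_ae h h1 h2
  have hm : MemLp (𝓕 h) 2 := (Lp.memLp (𝓕 (h2.toLp h) : Lp ℂ 2 (volume : Measure (V d)))).ae_eq hae
  refine ⟨hm.integrable_norm_pow (by norm_num), ?_⟩
  have e1 : ∫ x, ‖(𝓕 h) x‖ ^ 2 = ∫ x, ‖((𝓕 (h2.toLp h) : Lp ℂ 2 (volume : Measure (V d))) : V d → ℂ) x‖ ^ 2 := by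
    apply integral_congr_ae
    filter_upwards [hae] with x hx
    rw [hx]
  have e2 : ∫ x, ‖h x‖ ^ 2 = ∫ x, ‖(h2.toLp h : V d → ℂ) x‖ ^ 2 := by
    apply integral_congr_ae
    filter_upwards [h2.coeFn_toLp] with x hx
    rw [hx]
  rw [e1, e2, ← APLD_l2, ← APLD_l2, Lp.norm_fourier_eq]

open scoped FourierTransform in
theorem APLD_proof : APLD_stmt := by
  intro d R h hR h1 h2
  obtain ⟨m1, m2⟩ := APLD_main h h1 h2
  have hpi : (0 : ℝ) < Real.pi := Real.pi_pos
  have hFT : ∀ ξ : V d, FTR R h ξ = (𝓕 h) ((R / (2 * Real.pi)) • ξ) := by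
    intro ξ
    rw [Real.fourier_eq']
    unfold FTR
    apply integral_congr_ae
    refine Filter.Eventually.of_forall fun v => ?_
    show h v * _ = _ • h v
    rw [smul_eq_mul, mul_comm]
    congr 2
    have e1 : inner ℝ v ((R / (2 * Real.pi)) • ξ) = R / (2 * Real.pi) * ⟪ξ, v⟫_ℝ := by
      rw [inner_smul_right, real_inner_comm]
    rw [e1]
    have e2 : -2 * Real.pi * (R / (2 * Real.pi) * ⟪ξ, v⟫_ℝ) = -(R * ⟪ξ, v⟫_ℝ) := by
      field_simp
    rw [e2]
    push_cast
    ring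
  have hFT' : FTR R h = fun ξ => (𝓕 h) ((R / (2 * Real.pi)) • ξ) := funext hFT
  have hcont : Continuous (𝓕 h) :=
    VectorFourier.fourierIntegral_continuous Real.continuous_fourierChar continuous_inner h1
  have hcs : Continuous (fun ξ : V d => (R / (2 * Real.pi)) • ξ) := continuous_const_smul _
  refine ⟨?_, ?_⟩
  · rw [hFT']
    exact hcont.comp hcs
  · have hne : R / (2 * Real.pi) ≠ 0 := by positivity
    have m3 : Integrable (fun ξ : V d => ‖(𝓕 h) ((R / (2 * Real.pi)) • ξ)‖ ^ 2) :=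
      m1.comp_smul hne
    have h3 := Measure.integral_comp_smul (volume : Measure (V d)) (fun x => ‖(𝓕 h) x‖ ^ 2) (R / (2 * Real.pi))
    rw [m2, finrank_euclideanSpace_fin] at h3
    have e1 : ∀ ξ : V d, ‖FTR R h ξ‖ₑ ^ 2 = ENNReal.ofReal (‖(𝓕 h) ((R / (2 * Real.pi)) • ξ)‖ ^ 2) := by
      intro ξ
      rw [hFT, ENNReal.ofReal_pow (norm_nonneg _), ofReal_norm_eq_enorm]
    simp_rw [e1]
    rw [← ofReal_integral_eq_lintegral_ofReal m3 (Filter.Eventually.of_forall fun _ => by positivity), h3, smul_eq_mul]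
    congr 2
    rw [abs_of_pos (by positivity), ← inv_pow, inv_div]

end

end Pool.Agent.VD
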