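import Pool.Agent.helper47.VD.SpecA1b

/-!
# Project VD (MP_07c750_an), block A1, row AQSB: the packet coefficients
-/

set_option autoImplicit false

open scoped ContDiff Topology InnerProductSpace ComplexConjugate ENNReal
open MeasureTheory Filter Set

namespace Pool.Agent.VD

open Pool.Agent.VQ (CH)

noncomputable section

theorem AQSB_proof (h1 : AQSA_stmt) (h2 : AQSN_stmt) (h3 : AMVI_stmt) (h4 : AMYS_stmt) (h5 : AFHB_stmt) (h6 : ASGF_stmt) :
    AQSB_stmt := by
  intro d Γ _ _ K k B r0 χ ch ζ hFd hPU hCH hζ hζ'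
  obtain ⟨Ra, hRa, hA⟩ := h1 d Γ K k B r0 χ ch ζ hFd hPU hCH hζ hζ'
  obtain ⟨Rb, hRb, hB⟩ := h2 d Γ K k B r0 χ ch ζ hFd hPU hCH hζ hζ'
  refine ⟨max Ra Rb, hRa.trans (le_max_left _ _), ?_⟩
  intro R G hR hG Λ F T hD φ hφ
  obtain ⟨a1, a2, a3, a4, -, -⟩ := hA R G ((le_max_left _ _).trans hR) hG
  obtain ⟨n1, -, n3⟩ := hB R G ((le_max_right _ _).trans hR) hG
  obtain ⟨m1, -, -, -, m5, m6, -⟩ := h3 d Γ K k B G hFd hG
  haveI := m1
  obtain ⟨y1, -⟩ := h4 d Γ
  obtain ⟨⟨M, hM⟩, -⟩ := (h5 d Γ K k B G hFd hG Λ F T hD).1 φ hφ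
  have hM0 : 0 ≤ M := (norm_nonneg _).trans (hM 0)
  have hsm : ∀ γ : Γ, Continuous fun x : V d => γ • x := fun γ => (hFd.smooth γ).continuous
  -- continuity for a fixed chart
  have hcont : ∀ γ : Γ, Continuous fun p : P d => QF G χ ch ζ R φ ((γ, p) : YS Γ d) := by
    intro γ
    have hS : IsCompact ((fun x : V d => γ • x) '' Metric.closedBall (0 : V d) r0) := (isCompact_closedBall _ _).image (hsm γ)
    show Continuous fun p : P d => ∫ z, φ z * conj (Gp G χ ch ζ R ((γ, p) : YS Γ d) z) ∂mv G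
    refine continuous_of_dominated (bound := ((fun x : V d => γ • x) '' Metric.closedBall (0 : V d) r0).indicator fun _ => M * R ^ (3 * (d : ℝ) / 4 + ζ)) ?_ ?_ ?_ ?_
    · intro p
      have hc : Continuous fun z : V d => φ z * conj (Gp G χ ch ζ R ((γ, p) : YS Γ d) z) :=
        hφ.cont.mul (Complex.continuous_conj.comp ((a1 γ).comp (continuous_const.prodMk continuous_id)))
      exact hc.aestronglyMeasurable
    · intro p
      refine Eventually.of_forall fun z => ?_
      have hR0 : 0 ≤ R ^ (3 * (d : ℝ) / 4 + ζ) := (norm_nonneg _).trans (a3 ((γ, p) : YS Γ d) z)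
      by_cases h0 : Gp G χ ch ζ R ((γ, p) : YS Γ d) z = 0
      · rw [h0, map_zero, mul_zero, norm_zero]
        exact Set.indicator_nonneg (fun _ _ => mul_nonneg hM0 hR0) z
      · have hz : z ∈ (fun x : V d => γ • x) '' Metric.closedBall (0 : V d) r0 := by
          refine ⟨γ⁻¹ • z, ?_, smul_inv_smul γ z⟩
          rw [mem_closedBall_zero_iff]
          exact (a2 _ z h0).2.2
        rw [Set.indicator_of_mem hz, norm_mul, RCLike.norm_conj]
        exact mul_le_mul (hM z) (a3 _ z) (norm_nonneg _) hM0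
    · rw [integrable_indicator_iff hS.isClosed.measurableSet]
      exact integrableOn_const (m5 _ hS).ne
    · refine Eventually.of_forall fun z => ?_
      exact continuous_const.mul (Complex.continuous_conj.comp ((a1 γ).comp (continuous_id.prodMk continuous_const)))
  refine ⟨⟨y1 ℂ _ fun γ => (hcont γ).measurable, ⟨M * R ^ ((d : ℝ) / 4 + ζ), fun y => ?_⟩, ?_, ?_⟩, hcont⟩
  · -- bounded
    have hb : ‖∫ z, φ z * conj (Gp G χ ch ζ R y z) ∂mv G‖ ≤ ∫ z, M * ‖Gp G χ ch ζ R y z‖ ∂mv G := by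
      refine norm_integral_le_of_norm_le ((n1 y).norm.const_mul M) (Eventually.of_forall fun z => ?_)
      rw [norm_mul, RCLike.norm_conj]
      exact mul_le_mul_of_nonneg_right (hM z) (norm_nonneg _)
    rw [integral_const_mul] at hb
    exact hb.trans (mul_le_mul_of_nonneg_left (n3 y) hM0)
  · -- invariance
    intro γ hγ y
    have hh : MeasurableEmbedding fun x : V d => γ • x :=
      (Homeomorph.mk (Equiv.mk (fun x : V d => γ • x) (fun x : V d => γ⁻¹ • x) (fun x => inv_smul_smul γ x) (fun x => smul_inv_smul γ x))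
        (hsm γ) (hsm γ⁻¹)).measurableEmbedding
    have e := (m6 γ).integral_comp hh (fun z => φ z * conj (Gp G χ ch ζ R (γ • y) z))
    show ∫ z, φ z * conj (Gp G χ ch ζ R (γ • y) z) ∂mv G = ∫ z, φ z * conj (Gp G χ ch ζ R y z) ∂mv G
    rw [← e]
    refine integral_congr_ae (Eventually.of_forall fun z => ?_)
    show φ (γ • z) * conj (Gp G χ ch ζ R (γ • y) (γ • z)) = _
    rw [hφ.inv γ hγ, a4]
  · -- support
    rcases hD with ⟨-, -, hT⟩ | ⟨-, hF, -⟩
    · refine ⟨{1}, fun y hy _ => ?_⟩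
      rw [hT] at hy
      rw [Finset.mem_singleton]
      exact hy
    · obtain ⟨b, hb⟩ := hφ.supp
      obtain ⟨s1, s2, -⟩ := h6 d Γ K hFd (max b r0) 0
      refine ⟨s1.toFinset, fun y _ hy => ?_⟩
      have hz : ∃ z, φ z * conj (Gp G χ ch ζ R y z) ≠ 0 := by
        by_contra h0
        push Not at h0
        apply hy
        show ∫ z, φ z * conj (Gp G χ ch ζ R y z) ∂mv G = 0
        rw [integral_congr_ae (Eventually.of_forall h0), integral_zero]
      obtain ⟨z, hz⟩ := hz
      have hz1 := hb z (by rw [hF]; trivial) (left_ne_zero_of_mul hz)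
      have hz2 := (a2 y z (fun h0 => hz (by rw [h0, map_zero, mul_zero]))).2.2
      have hmem : y.1⁻¹ ∈ SG Γ d (max b r0) := ⟨z, hz1.trans (le_max_left _ _), hz2.trans (le_max_right _ _)⟩
      rw [Set.Finite.mem_toFinset]
      have := s2 _ hmem
      rwa [inv_inv] at this

end

end Pool.Agent.VD
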