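import Pool.Agent.helper84.VD.SpecB5

/-!
# Project VD (MP_07c750_an), block B3, row CRX: crude bounds for long times
-/

set_option autoImplicit false

open scoped ContDiff Topology InnerProductSpace ENNReal
open MeasureTheory Filter Set

namespace Pool.Agent.VD

noncomputable section

/-- one step -/
theorem CRX_step {d : ℕ} {Γ : Type} [Group Γ] [MulAction Γ (V d)] {K : Set (V d)} {C : ℝ} {G : V d → V d →L[ℝ] V d} {Φ : ℝ → P d → P d}
    {D : P d → P d → ℝ} (h : GEO Γ K C G Φ D) (β : Γ) (t t' e : ℝ) (z z' : P d) (ht : |t| ≤ 3) (hz : z ∈ SK K G) (hz' : MM Φ β (t, z) ∈ SK K G)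
    (h1 : |t' - t| ≤ e) (h2 : ‖z' - z‖ ≤ e) (he : e ≤ 1 / C) :
    ‖MM Φ β (t', z') - MM Φ β (t, z)‖ ≤ C * e ∧ (∀ v : P d, ‖fderiv ℝ (MM Φ β) (t, z) (0, v)‖ ≤ C * ‖v‖ ∧ ‖fderiv ℝ (MM Φ β) (t', z') (0, v)‖ ≤ C * ‖v‖) ∧
      ∀ v v' : P d, ‖fderiv ℝ (MM Φ β) (t, z) (0, v) - fderiv ℝ (MM Φ β) (t', z') (0, v')‖ ≤ C * ‖v - v'‖ + C * e * ‖v'‖ := by
  have hC : 0 < C := lt_of_lt_of_le one_pos h.C1
  have hd : ‖((t', z') : ℝ × P d) - (t, z)‖ ≤ e := by
    rw [Prod.mk_sub_mk, Prod.norm_mk, Real.norm_eq_abs]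
    exact max_le h1 h2
  have h0 : ‖((t, z) : ℝ × P d) - (t, z)‖ ≤ 1 / C := by
    rw [sub_self, norm_zero]
    positivity
  have hb := h.bm β z hz (MM Φ β (t, z)) hz' t ht (by rw [sub_self, norm_zero]; positivity)
  have hb1 := (hb (t, z) (t', z') h0 (hd.trans he)).1
  have hb2 := (hb (t', z') (t, z) (hd.trans he) h0).1
  have hb3 := (hb (t, z) (t', z') h0 (hd.trans he)).2
  have hn : ∀ v : P d, ‖((0, v) : ℝ × P d)‖ = ‖v‖ := by
    intro v
    rw [Prod.norm_mk, norm_zero, max_eq_right (norm_nonneg _)]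
  have hle : ∀ (A : ℝ × P d →L[ℝ] P d) (c : ℝ) (v : P d), ‖A‖ ≤ c → ‖A (0, v)‖ ≤ c * ‖v‖ := by
    intro A c v hA
    refine (A.le_opNorm _).trans ?_
    rw [hn]
    exact mul_le_mul_of_nonneg_right hA (norm_nonneg _)
  refine ⟨?_, fun v => ⟨hle _ _ v hb1, hle _ _ v hb2⟩, ?_⟩
  · have hmv := (convex_closedBall ((t, z) : ℝ × P d) (1 / C)).norm_image_sub_le_of_norm_fderiv_le (f := (MM Φ β : ℝ × P d → P d)) (C := C)
      (x := (t, z)) (y := (t', z')) (fun u _ => ((h.dif β).differentiable (by simp)).differentiableAt)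
      (fun u hu => (hb u (t, z) (by rw [← dist_eq_norm]; exact hu) h0).1)
      (Metric.mem_closedBall_self (by positivity)) (by rw [Metric.mem_closedBall, dist_eq_norm]; exact hd.trans he)
    exact hmv.trans (mul_le_mul_of_nonneg_left hd hC.le)
  · intro v v'
    have e1 : fderiv ℝ (MM Φ β) (t, z) (0, v) - fderiv ℝ (MM Φ β) (t', z') (0, v') =
        fderiv ℝ (MM Φ β) (t, z) (0, v - v') + (fderiv ℝ (MM Φ β) (t, z) - fderiv ℝ (MM Φ β) (t', z')) (0, v') := by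
      have e2 : ((0, v - v') : ℝ × P d) = (0, v) - (0, v') :=
        Prod.ext (sub_zero (0 : ℝ)).symm rfl
      rw [e2, map_sub, sub_apply]
      abel
    rw [e1]
    refine (norm_add_le _ _).trans (add_le_add (hle _ _ _ hb1) (hle _ _ _ (hb3.trans ?_)))
    refine mul_le_mul_of_nonneg_left ?_ hC.le
    rw [norm_sub_rev]
    exact hd

theorem CRX_proof (hDCH : DCH_stmt) : CRX_stmt := by
  intro d C hC
  have hC0 : 0 < C := by linarith
  have hM1 : 1 ≤ 2 * C ^ 2 := by nlinarith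
  refine ⟨2 * C ^ 2, hM1, ?_⟩
  intro Γ _ _ K G Φ D h n γ l l' p q hl1 hl2 hl1' hl2' hp hγ hS
  obtain ⟨c1, -, -⟩ := hDCH d C Γ K G Φ D h
  obtain ⟨a, ha⟩ : ∃ a, a = ‖p - q‖ := ⟨_, rfl⟩
  obtain ⟨x, hx⟩ : ∃ x, x = |l - l'| := ⟨_, rfl⟩
  have ha0 : 0 ≤ a := by rw [ha]; exact norm_nonneg _
  have hx0 : 0 ≤ x := by rw [hx]; exact abs_nonneg _
  rw [← ha, ← hx] at hS
  rw [← ha, ← hx]
  have hCM : C ≤ 2 * C ^ 2 := by nlinarith
  have hS0 : 0 ≤ a + n * x := by positivity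
  have hS' : C ^ (n + 1) * (a + n * x) ≤ 1 :=
    (mul_le_mul_of_nonneg_right (pow_le_pow_left₀ hC0.le hCM (n + 1)) hS0).trans hS
  have hnorm1 : ∀ t : ℝ, nrm G (Φ t p) = 1 := by
    intro t
    have h1 := (h.hm 1 t p).1
    have h2 : MM Φ (1 : Γ) (t, p) = Φ t p := h.l1 _
    rw [h2] at h1
    rw [h1]
    exact hp.2
  -- the smallness
  have small : ∀ i : ℕ, i ≤ n → C ^ (i + 1) * (a + i * x) ≤ 1 := by
    intro i hi
    refine le_trans ?_ hS'
    have h1 : C ^ (i + 1) ≤ C ^ (n + 1) := pow_le_pow_right₀ hC (by omega)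
    have h2 : a + i * x ≤ a + n * x := by
      have : (i : ℝ) ≤ n := by exact_mod_cast hi
      nlinarith
    exact mul_le_mul h1 h2 (by positivity) (by positivity)
  have main : ∀ i : ℕ, i ≤ n → ∀ g : Γ, MM Φ g (i * l, p) ∈ SK K G →
      ‖MM Φ g (i * l', q) - MM Φ g (i * l, p)‖ ≤ C ^ (i + 1) * (a + i * x) ∧
      ∀ v : P d, ‖fderiv ℝ (MM Φ g) (i * l, p) (0, v)‖ ≤ C ^ (i + 1) * ‖v‖ ∧ ‖fderiv ℝ (MM Φ g) (i * l', q) (0, v)‖ ≤ C ^ (i + 1) * ‖v‖ ∧
        ‖fderiv ℝ (MM Φ g) (i * l, p) (0, v) - fderiv ℝ (MM Φ g) (i * l', q) (0, v)‖ ≤ (i + 1) * C ^ (2 * (i + 1)) * (a + i * x) * ‖v‖ := by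
    intro i
    induction i with
    | zero =>
      intro _ g hg
      have hs := small 0 (Nat.zero_le n)
      rw [zero_add, pow_one, Nat.cast_zero, zero_mul, add_zero] at hs
      rw [Nat.cast_zero, zero_mul] at hg
      rw [Nat.cast_zero, zero_mul, zero_mul, zero_mul, add_zero, zero_add, pow_one]
      obtain ⟨s1, s2, s3⟩ := CRX_step h g 0 0 a p q (by simp) hp hg (by simpa using ha0) (by rw [norm_sub_rev, ← ha])
        (by rw [le_div_iff₀ hC0]; linarith)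
      refine ⟨s1, fun v => ⟨(s2 v).1, (s2 v).2, ?_⟩⟩
      have h1 := s3 v v
      rw [sub_self, norm_zero, mul_zero, zero_add] at h1
      refine h1.trans ?_
      rw [zero_add, mul_one, one_mul]
      have h2 : C ≤ C ^ 2 := by nlinarith
      exact mul_le_mul_of_nonneg_right (mul_le_mul_of_nonneg_right h2 ha0) (norm_nonneg _)
    | succ i ih =>
      intro hi g hg
      obtain ⟨g', hg'⟩ := h.cov (Φ (i * l) p) (hnorm1 _)
      have hg'' : MM Φ g' (i * l, p) ∈ SK K G := hg'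
      obtain ⟨i1, i2⟩ := ih (by omega) g' hg''
      obtain ⟨y, hy⟩ : ∃ y, y = MM Φ g' (i * l, p) := ⟨_, rfl⟩
      obtain ⟨y', hy'⟩ : ∃ y', y' = MM Φ g' (i * l', q) := ⟨_, rfl⟩
      obtain ⟨β, hβ⟩ : ∃ β, β = g * g'⁻¹ := ⟨_, rfl⟩
      have hβg : β * g' = g := by rw [hβ, inv_mul_cancel_right]
      have e1 : ((i + 1 : ℕ) : ℝ) * l = l + i * l := by push_cast; ring
      have e2 : ((i + 1 : ℕ) : ℝ) * l' = l' + i * l' := by push_cast; ring
      have k1 := c1 g' β l (i * l) p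
      have k2 := c1 g' β l' (i * l') q
      rw [hβg, ← e1, ← hy] at k1
      rw [hβg, ← e2, ← hy'] at k2
      rw [← hy, ← hy'] at i1
      have hsm := small (i + 1) hi
      have hpow : 0 < C ^ (i + 1) := by positivity
      have hpow1 : 1 ≤ C ^ (i + 1) := one_le_pow₀ hC
      obtain ⟨e, he⟩ : ∃ e, e = C ^ (i + 1) * (a + (i + 1) * x) := ⟨_, rfl⟩
      have he0 : 0 ≤ e := by rw [he]; positivity
      have he1 : |l' - l| ≤ e := by
        rw [abs_sub_comm, ← hx, he]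
        have : x ≤ a + (i + 1) * x := by nlinarith [mul_nonneg (Nat.cast_nonneg (α := ℝ) i) hx0]
        nlinarith
      have he2 : ‖y' - y‖ ≤ e := by
        refine i1.trans ?_
        rw [he]
        exact mul_le_mul_of_nonneg_left (by nlinarith) hpow.le
      have he3 : e ≤ 1 / C := by
        rw [le_div_iff₀ hC0, he]
        push_cast at hsm
        calc C ^ (i + 1) * (a + (i + 1) * x) * C = C ^ (i + 1 + 1) * (a + (i + 1) * x) := by ring
          _ ≤ 1 := hsm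
      have hstep := CRX_step h β l l' e y y' (by rw [abs_of_pos (by linarith)]; linarith) (by rw [hy]; exact hg'')
        (by rw [← k1.1]; exact hg) he1 he2 he3
      obtain ⟨s1, s2, s3⟩ := hstep
      have hcast : ((i + 1 : ℕ) : ℝ) = (i : ℝ) + 1 := by push_cast; rfl
      refine ⟨?_, fun v => ?_⟩
      · rw [k1.1, k2.1]
        refine s1.trans (le_of_eq ?_)
        rw [he, hcast]
        ring
      · obtain ⟨j1, j2, j3⟩ := i2 v
        rw [k1.2 v, k2.2 v]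
        have hv := norm_nonneg v
        refine ⟨?_, ?_, ?_⟩
        · refine (s2 _).1.trans ?_
          calc C * ‖fderiv ℝ (MM Φ g') (i * l, p) (0, v)‖ ≤ C * (C ^ (i + 1) * ‖v‖) := mul_le_mul_of_nonneg_left j1 hC0.le
            _ = C ^ (i + 1 + 1) * ‖v‖ := by ring
        · refine (s2 _).2.trans ?_
          calc C * ‖fderiv ℝ (MM Φ g') (i * l', q) (0, v)‖ ≤ C * (C ^ (i + 1) * ‖v‖) := mul_le_mul_of_nonneg_left j2 hC0.le
            _ = C ^ (i + 1 + 1) * ‖v‖ := by ring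
        · refine (s3 _ _).trans ?_
          have t1 : C * ‖fderiv ℝ (MM Φ g') (i * l, p) (0, v) - fderiv ℝ (MM Φ g') (i * l', q) (0, v)‖ ≤
              C * (((i : ℝ) + 1) * C ^ (2 * (i + 1)) * (a + i * x) * ‖v‖) := mul_le_mul_of_nonneg_left j3 hC0.le
          have t2 : C * e * ‖fderiv ℝ (MM Φ g') (i * l', q) (0, v)‖ ≤ C * e * (C ^ (i + 1) * ‖v‖) :=
            mul_le_mul_of_nonneg_left j2 (mul_nonneg hC0.le he0)
          refine (add_le_add t1 t2).trans ?_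
          obtain ⟨Q, hQ⟩ : ∃ Q, Q = C ^ (2 * (i + 1)) := ⟨_, rfl⟩
          have hQ0 : 0 < Q := by rw [hQ]; positivity
          have r1 : C * e * (C ^ (i + 1) * ‖v‖) = C * Q * (a + ((i : ℝ) + 1) * x) * ‖v‖ := by
            rw [he, hQ]
            ring
          have r2 : C ^ (2 * (i + 1 + 1)) = C ^ 2 * Q := by
            rw [hQ]
            ring
          rw [r1, r2, ← hQ, hcast]
          have r3 : C * Q * (a + i * x) * ‖v‖ ≤ C ^ 2 * Q * (a + ((i : ℝ) + 1) * x) * ‖v‖ := by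
            refine mul_le_mul_of_nonneg_right ?_ hv
            refine mul_le_mul ?_ (by nlinarith) (by positivity) (by positivity)
            exact mul_le_mul_of_nonneg_right (by nlinarith) hQ0.le
          have r4 : C * Q * (a + ((i : ℝ) + 1) * x) * ‖v‖ ≤ C ^ 2 * Q * (a + ((i : ℝ) + 1) * x) * ‖v‖ := by
            refine mul_le_mul_of_nonneg_right ?_ hv
            refine mul_le_mul_of_nonneg_right ?_ (by positivity)
            exact mul_le_mul_of_nonneg_right (by nlinarith) hQ0.le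
          have r5 := mul_le_mul_of_nonneg_left r3 (by positivity : (0 : ℝ) ≤ (i : ℝ) + 1)
          calc C * (((i : ℝ) + 1) * Q * (a + i * x) * ‖v‖) + C * Q * (a + ((i : ℝ) + 1) * x) * ‖v‖
              = ((i : ℝ) + 1) * (C * Q * (a + i * x) * ‖v‖) + C * Q * (a + ((i : ℝ) + 1) * x) * ‖v‖ := by ring
            _ ≤ ((i : ℝ) + 1) * (C ^ 2 * Q * (a + ((i : ℝ) + 1) * x) * ‖v‖) + C ^ 2 * Q * (a + ((i : ℝ) + 1) * x) * ‖v‖ := add_le_add r5 r4
            _ = ((i : ℝ) + 1 + 1) * (C ^ 2 * Q) * (a + ((i : ℝ) + 1) * x) * ‖v‖ := by ring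
  intro v
  obtain ⟨-, hm⟩ := main n le_rfl γ hγ
  obtain ⟨m1, m2, m3⟩ := hm v
  have hv := norm_nonneg v
  have p1 : C ^ (n + 1) ≤ (2 * C ^ 2) ^ (n + 1) := pow_le_pow_left₀ hC0.le hCM (n + 1)
  have p2 : ((n : ℝ) + 1) * C ^ (2 * (n + 1)) ≤ (2 * C ^ 2) ^ (n + 1) := by
    rw [mul_pow, ← pow_mul]
    refine mul_le_mul_of_nonneg_right ?_ (by positivity)
    have h1 : n + 1 ≤ 2 ^ (n + 1) := Nat.lt_two_pow_self.le
    exact_mod_cast h1
  refine ⟨m1.trans (mul_le_mul_of_nonneg_right p1 hv), m2.trans (mul_le_mul_of_nonneg_right p1 hv), m3.trans ?_⟩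
  exact mul_le_mul_of_nonneg_right (mul_le_mul_of_nonneg_right p2 hS0) hv

end

end Pool.Agent.VD
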