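import Mathlib
import Pool.Agent.helper55.VD.SpecE0

/-!
# EAX (project VD, MP_07c750_an): transport
-/

set_option autoImplicit false

open scoped ENNReal ComplexConjugate
open MeasureTheory Filter Set

namespace Pool.Agent.VDA

open Pool.Agent.VQ (PS KZ cmZ perZ)
open Pool.Agent.RPQ (IsOp)

noncomputable section

theorem EAX_cs {Y : Type*} [MeasurableSpace Y] (ν : Measure Y) (f : Y → ENNReal) (hf : AEMeasurable f ν) :
    (∫⁻ y, f y ∂ν) ^ 2 ≤ ν univ * ∫⁻ y, f y ^ 2 ∂ν := by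
  have h := ENNReal.lintegral_mul_le_Lp_mul_Lq ν Real.HolderConjugate.two_two (f := fun _ => (1 : ENNReal)) (g := f) aemeasurable_const hf
  simp only [Pi.mul_apply, one_mul, ENNReal.one_rpow, lintegral_const] at h
  have h2 := pow_le_pow_left₀ zero_le h 2
  refine h2.trans (le_of_eq ?_)
  rw [mul_pow]
  have e : ∀ x : ENNReal, (x ^ (1 / 2 : ℝ)) ^ 2 = x := by
    intro x
    rw [← ENNReal.rpow_natCast, ← ENNReal.rpow_mul]
    norm_num
  rw [e, e]
  congr 1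
  refine lintegral_congr fun y => ?_
  rw [← ENNReal.rpow_natCast]
  norm_num

theorem EAX_mv {X : Type*} [MeasurableSpace X] (μ : Measure X) [SFinite μ] (S : Set X) (W : ℝ → X → ENNReal) (Y Y' : ℝ → X → ℂ) (t B : ℝ) (ht : 0 ≤ t) (hS : MeasurableSet S)
    (hd : ∀ x ∈ S, ∀ s ∈ Icc 0 t, HasDerivAt (fun s => Y s x) (Y' s x) s) (hc : ∀ x ∈ S, ContinuousOn (fun s => Y' s x) (Icc 0 t))
    (hW : ∀ x ∈ S, ∀ s ∈ Icc 0 t, ‖Y' s x‖ₑ ^ 2 = W s x)
    (hm : AEMeasurable (fun x : X × ℝ => W x.2 x.1) ((μ.restrict S).prod (volume.restrict (Icc 0 t))))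
    (hB : ∀ s ∈ Icc 0 t, ∫⁻ x in S, W s x ∂μ ≤ ENNReal.ofReal B) :
    ∫⁻ x in S, ‖Y t x - Y 0 x‖ₑ ^ 2 ∂μ ≤ ENNReal.ofReal (t ^ 2) * ENNReal.ofReal B := by
  have h1 : ∀ x ∈ S, ‖Y t x - Y 0 x‖ₑ ^ 2 ≤ ENNReal.ofReal t * ∫⁻ s in Icc (0 : ℝ) t, W s x := by
    intro x hx
    have hci : ContinuousOn (fun s => Y' s x) (uIcc 0 t) := by rw [uIcc_of_le ht]; exact hc x hx
    have e1 : ∫ s in (0 : ℝ)..t, Y' s x = Y t x - Y 0 x := by
      refine intervalIntegral.integral_eq_sub_of_hasDerivAt (f := fun s => Y s x) (fun s hs => hd x hx s ?_) hci.intervalIntegrable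
      rwa [uIcc_of_le ht] at hs
    have hm1 : AEMeasurable (fun s => ‖Y' s x‖ₑ) (volume.restrict (Icc 0 t)) :=
      ((hc x hx).aestronglyMeasurable measurableSet_Icc).enorm
    have e2 : ‖Y t x - Y 0 x‖ₑ ≤ ∫⁻ s in Icc (0 : ℝ) t, ‖Y' s x‖ₑ := by
      rw [← e1, intervalIntegral.integral_of_le ht, ← integral_Icc_eq_integral_Ioc]
      exact enorm_integral_le_lintegral_enorm _
    calc ‖Y t x - Y 0 x‖ₑ ^ 2 ≤ (∫⁻ s in Icc (0 : ℝ) t, ‖Y' s x‖ₑ) ^ 2 := pow_le_pow_left₀ zero_le e2 2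
      _ ≤ (volume.restrict (Icc 0 t)) univ * ∫⁻ s in Icc (0 : ℝ) t, ‖Y' s x‖ₑ ^ 2 := EAX_cs _ _ hm1
      _ = ENNReal.ofReal t * ∫⁻ s in Icc (0 : ℝ) t, W s x := by
        rw [Measure.restrict_apply_univ, Real.volume_Icc, sub_zero]
        congr 1
        exact setLIntegral_congr_fun measurableSet_Icc fun s hs => hW x hx s hs
  calc ∫⁻ x in S, ‖Y t x - Y 0 x‖ₑ ^ 2 ∂μ ≤ ∫⁻ x in S, ENNReal.ofReal t * (∫⁻ s in Icc (0 : ℝ) t, W s x) ∂μ :=
        setLIntegral_mono' hS h1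
    _ = ENNReal.ofReal t * ∫⁻ x in S, (∫⁻ s in Icc (0 : ℝ) t, W s x) ∂μ := lintegral_const_mul' _ _ ENNReal.ofReal_ne_top
    _ = ENNReal.ofReal t * ∫⁻ s in Icc (0 : ℝ) t, ∫⁻ x in S, W s x ∂μ := by
        congr 1
        exact lintegral_lintegral_swap (f := fun x s => W s x) hm
    _ ≤ ENNReal.ofReal t * ∫⁻ s in Icc (0 : ℝ) t, ENNReal.ofReal B := by
        refine mul_le_mul' le_rfl ?_
        exact setLIntegral_mono' measurableSet_Icc hB
    _ = ENNReal.ofReal (t ^ 2) * ENNReal.ofReal B := by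
        rw [setLIntegral_const, Real.volume_Icc, sub_zero, sq, ENNReal.ofReal_mul ht]
        ring

theorem EAX_norm (a : ℝ) : ‖Complex.exp (((a : ℝ) : ℂ) * Complex.I)‖ₑ = 1 := by
  rw [← ofReal_norm, Complex.norm_exp_ofReal_mul_I, ENNReal.ofReal_one]

theorem EAX_proof : EAX_stmt := by
  intro X _ μ _ S p r g t ρ ht hS hρ hg hr hd hm hB
  -- the phase
  let Θ : ℝ → X → ℝ := fun s x => ∫ u in (0 : ℝ)..s, g u x
  have hΘ : ∀ x ∈ S, ∀ s, HasDerivAt (fun s => Θ s x) (g s x) s := by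
    intro x hx s
    exact intervalIntegral.integral_hasDerivAt_right ((hg x hx).intervalIntegrable _ _) ((hg x hx).stronglyMeasurableAtFilter _ _) (hg x hx).continuousAt
  let E : ℝ → X → ℂ := fun s x => Complex.exp ((((-Θ s x : ℝ)) : ℂ) * Complex.I)
  have hE : ∀ x ∈ S, ∀ s, HasDerivAt (fun s => E s x) (E s x * ((((-g s x : ℝ)) : ℂ) * Complex.I)) s := by
    intro x hx s
    have h1 : HasDerivAt (fun s => (((-Θ s x : ℝ)) : ℂ)) (((-g s x : ℝ)) : ℂ) s := ((hΘ x hx s).neg).ofReal_comp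
    exact (h1.mul_const Complex.I).cexp
  let Y : ℝ → X → ℂ := fun s x => E s x * p s x
  let Y' : ℝ → X → ℂ := fun s x => E s x * (Complex.I * r s x)
  have hdY : ∀ x ∈ S, ∀ s ∈ Icc 0 t, HasDerivAt (fun s => Y s x) (Y' s x) s := by
    intro x hx s hs
    have h1 := (hE x hx s).mul (hd x hx s hs)
    have h2 : E s x * ((((-g s x : ℝ)) : ℂ) * Complex.I) * p s x + E s x * (Complex.I * ((g s x : ℝ) : ℂ) * p s x + Complex.I * r s x) = Y' s x := by
      show _ = E s x * (Complex.I * r s x)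
      push_cast
      ring
    rw [← h2]
    exact h1
  have hcY : ∀ x ∈ S, ContinuousOn (fun s => Y' s x) (Icc 0 t) := by
    intro x hx
    have h1 : Continuous (fun s => E s x) := continuous_iff_continuousAt.2 fun s => (hE x hx s).continuousAt
    exact h1.continuousOn.mul (continuousOn_const.mul (hr x hx))
  have hW : ∀ x ∈ S, ∀ s ∈ Icc 0 t, ‖Y' s x‖ₑ ^ 2 = ‖r s x‖ₑ ^ 2 := by
    intro x _ s _
    have h1 : ‖Y' s x‖ₑ = ‖r s x‖ₑ := by
      show ‖E s x * (Complex.I * r s x)‖ₑ = ‖r s x‖ₑ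
      rw [enorm_mul, enorm_mul, EAX_norm, one_mul]
      have h2 : ‖Complex.I‖ₑ = 1 := by
        rw [← ofReal_norm, Complex.norm_I, ENNReal.ofReal_one]
      rw [h2, one_mul]
    rw [h1]
  have hfin := EAX_mv μ S (fun s x => ‖r s x‖ₑ ^ 2) Y Y' t ρ ht hS hdY hcY hW hm hB
  rw [ENNReal.ofReal_mul (sq_nonneg t)]
  refine le_trans (le_of_eq ?_) hfin
  refine lintegral_congr fun x => ?_
  have h0 : Θ 0 x = 0 := intervalIntegral.integral_same
  have hY0 : Y 0 x = p 0 x := by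
    show Complex.exp ((((-Θ 0 x : ℝ)) : ℂ) * Complex.I) * p 0 x = p 0 x
    rw [h0, neg_zero, Complex.ofReal_zero, zero_mul, Complex.exp_zero, one_mul]
  have h3 : p t x - Complex.exp (((∫ s in (0 : ℝ)..t, g s x : ℝ) : ℂ) * Complex.I) * p 0 x =
      Complex.exp (((Θ t x : ℝ) : ℂ) * Complex.I) * (Y t x - Y 0 x) := by
    rw [hY0]
    show p t x - Complex.exp (((Θ t x : ℝ) : ℂ) * Complex.I) * p 0 x =
      Complex.exp (((Θ t x : ℝ) : ℂ) * Complex.I) * (Complex.exp ((((-Θ t x : ℝ)) : ℂ) * Complex.I) * p t x - p 0 x)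
    have h4 : Complex.exp (((Θ t x : ℝ) : ℂ) * Complex.I) * Complex.exp ((((-Θ t x : ℝ)) : ℂ) * Complex.I) = 1 := by
      rw [← Complex.exp_add]
      push_cast
      rw [neg_mul, add_neg_cancel, Complex.exp_zero]
    rw [mul_sub, ← mul_assoc, h4, one_mul]
  rw [h3, enorm_mul, EAX_norm, one_mul]

end

end Pool.Agent.VDA
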