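import Pool.Agent.helper93.VD.SpecB1

/-!
# Project VD (MP_07c750_an), block B1, row NWS: weighted sums
-/

set_option autoImplicit false

open scoped ContDiff Topology InnerProductSpace
open MeasureTheory Filter Set

namespace Pool.Agent.VD

noncomputable section

theorem NWS_exp (μ α : ℝ) (hμ : Real.exp μ = 1 + α) (x : ℝ) :
    Real.exp (-(μ * x)) = (1 + α) * Real.exp (-(μ * (x + 1))) := by
  rw [← hμ, ← Real.exp_add]
  congr 1
  ring

theorem NWS_seq (α κ μ : ℝ) (hα : 0 < α) (hα1 : α ≤ 1) (hκ : 0 ≤ κ) (hμ : Real.exp μ = 1 + α) (n : ℕ) (q D : ℕ → ℝ)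
    (hq : ∀ i ≤ n, |q i| ≤ D i) (hs : ∀ i < n, q i + α * D i - κ ≤ q (i + 1)) (k : ℕ) (hk : k < n) :
    α * D k ≤ (1 + α) * (Real.exp (-(μ * (n - k))) * max 0 (q n)) + Real.exp (-(μ * k)) * max 0 (-q 0) + κ * (1 + 2 / α) := by
  have hκα : 0 ≤ κ / α := div_nonneg hκ hα.le
  have hκe : α * (κ / α) = κ := by field_simp
  have hN : ∀ i : ℕ, i ≤ n → max 0 (-q i) ≤ Real.exp (-(μ * i)) * max 0 (-q 0) + κ / α := by
    intro i
    induction i with
    | zero =>
      intro _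
      rw [Nat.cast_zero, mul_zero, neg_zero, Real.exp_zero, one_mul]
      linarith
    | succ i ih =>
      intro hi
      have ih' := ih (by omega)
      have h1 := hs i (by omega)
      have h2 := hq i (by omega)
      have h3 := NWS_exp μ α hμ (i : ℝ)
      have h4 : max 0 (-q (i + 1)) ≤ (1 - α) * max 0 (-q i) + κ := by
        refine max_le ?_ ?_
        · have := mul_nonneg (sub_nonneg.2 hα1) (le_max_left 0 (-q i))
          linarith
        · rcases le_or_gt 0 (q i) with h | h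
          · have h5 : α * q i ≤ α * D i := mul_le_mul_of_nonneg_left ((le_abs_self _).trans h2) hα.le
            have h6 := mul_nonneg (sub_nonneg.2 hα1) (le_max_left 0 (-q i))
            have h7 : 0 ≤ α * q i := mul_nonneg hα.le h
            linarith
          · have h5 : α * (-q i) ≤ α * D i := mul_le_mul_of_nonneg_left ((neg_le_abs _).trans h2) hα.le
            rw [max_eq_right (by linarith)]
            linarith
      have h8 : (1 - α) * max 0 (-q i) ≤ (1 - α) * (Real.exp (-(μ * i)) * max 0 (-q 0) + κ / α) :=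
        mul_le_mul_of_nonneg_left ih' (sub_nonneg.2 hα1)
      have h9 : (1 - α) * Real.exp (-(μ * i)) ≤ Real.exp (-(μ * (i + 1))) := by
        rw [h3]
        have := Real.exp_pos (-(μ * ((i : ℝ) + 1)))
        nlinarith [mul_pos (mul_pos hα hα) this]
      have h10 := mul_le_mul_of_nonneg_right h9 (le_max_left 0 (-q 0))
      push_cast
      nlinarith
  have hP : ∀ j : ℕ, j ≤ n → max 0 (q (n - j)) ≤ Real.exp (-(μ * j)) * max 0 (q n) + κ / α := by
    intro j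
    induction j with
    | zero =>
      intro _
      rw [Nat.cast_zero, mul_zero, neg_zero, Real.exp_zero, one_mul, Nat.sub_zero]
      linarith
    | succ j ih =>
      intro hj
      have ih' := ih (by omega)
      obtain ⟨i, hi⟩ : ∃ i, i = n - (j + 1) := ⟨_, rfl⟩
      have hi1 : n - j = i + 1 := by omega
      rw [← hi]
      rw [hi1] at ih'
      have h1 := hs i (by omega)
      have h2 := hq i (by omega)
      have h3 := NWS_exp μ α hμ (j : ℝ)
      have h4 : (1 + α) * max 0 (q i) ≤ max 0 (q (i + 1)) + κ := by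
        have h0 := le_max_left 0 (q (i + 1))
        have h0' := le_max_right 0 (q (i + 1))
        rcases le_or_gt 0 (q i) with h | h
        · have h5 : α * q i ≤ α * D i := mul_le_mul_of_nonneg_left ((le_abs_self _).trans h2) hα.le
          rw [max_eq_right h]
          linarith
        · rw [max_eq_left h.le, mul_zero]
          linarith
      have h5 : (1 + α) * max 0 (q i) ≤ (1 + α) * (Real.exp (-(μ * (j + 1))) * max 0 (q n) + κ / α) := by
        rw [h3] at ih'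
        linarith
      push_cast
      exact le_of_mul_le_mul_left h5 (by linarith)
  have h1 := hN k hk.le
  have h2 := hP (n - (k + 1)) (by omega)
  have h3 : n - (n - (k + 1)) = k + 1 := by omega
  have h4 : ((n - (k + 1) : ℕ) : ℝ) = (n : ℝ) - k - 1 := by
    rw [Nat.cast_sub (by omega)]
    push_cast
    ring
  rw [h3, h4, NWS_exp μ α hμ, sub_add_cancel] at h2
  have h5 := hs k hk
  have h6 := le_max_right 0 (q (k + 1))
  have h7 := le_max_right 0 (-q k)
  have h8 : κ * (1 + 2 / α) = κ + κ / α + κ / α := by ring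
  rw [h8]
  linarith

theorem NWS_abs {m : ℕ} (z : Z m) : |QQ z| ≤ ‖z‖ ^ 2 := by
  unfold QQ
  have h1 := abs_real_inner_le_norm z.1 z.2
  have h2 := norm_fst_le z
  have h3 := norm_snd_le z
  have h4 := mul_le_mul h2 h3 (norm_nonneg _) (norm_nonneg z)
  nlinarith

theorem NWS_add {m : ℕ} (u r : Z m) : QQ u - 2 * ‖u‖ * ‖r‖ - ‖r‖ ^ 2 ≤ QQ (u + r) := by
  have e : QQ (u + r) = QQ u + ⟪u.1, r.2⟫_ℝ + ⟪r.1, u.2⟫_ℝ + QQ r := by
    unfold QQ
    rw [Prod.fst_add, Prod.snd_add, inner_add_left, inner_add_right, inner_add_right]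
    ring
  have h1 := (abs_le.1 (abs_real_inner_le_norm u.1 r.2)).1
  have h2 := (abs_le.1 (abs_real_inner_le_norm r.1 u.2)).1
  have h3 := (abs_le.1 (NWS_abs r)).1
  have h4 := mul_le_mul (norm_fst_le u) (norm_snd_le r) (norm_nonneg _) (norm_nonneg u)
  have h5 := mul_le_mul (norm_fst_le r) (norm_snd_le u) (norm_nonneg _) (norm_nonneg r)
  rw [e]
  nlinarith

theorem NWS_proof (hNFD : NFD_stmt) : NWS_stmt := by
  intro m c C e0 hc hC he0
  obtain ⟨e1, he1, he1', hN⟩ := hNFD m c C e0 hc hC he0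
  obtain ⟨α, hα⟩ : ∃ α, α = min (3 * c / 8) 1 := ⟨_, rfl⟩
  have hα0 : 0 < α := by rw [hα]; exact lt_min (by linarith) one_pos
  have hα1 : α ≤ 1 := by rw [hα]; exact min_le_right _ _
  have hαc : α ≤ 3 * c / 8 := by rw [hα]; exact min_le_left _ _
  have hμ : Real.exp (Real.log (1 + α)) = 1 + α := Real.exp_log (by linarith)
  obtain ⟨K1, hK1⟩ : ∃ K1, K1 = 32 * C ^ 2 / c + 4 := ⟨_, rfl⟩
  have hK10 : 0 ≤ K1 := by rw [hK1]; positivity
  obtain ⟨A, hA⟩ : ∃ A, A = (1 + α) / α := ⟨_, rfl⟩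
  obtain ⟨B, hB⟩ : ∃ B, B = K1 * (1 + 2 / α) / α := ⟨_, rfl⟩
  have hA0 : 0 ≤ A := by rw [hA]; positivity
  have hB0 : 0 ≤ B := by rw [hB]; positivity
  have hC2 : 1 ≤ C ^ 2 := by nlinarith
  refine ⟨e1, Real.log (1 + α), 4 * C ^ 2 * (A + B) + 8, he1, he1', Real.log_pos (by linarith), ?_, ?_⟩
  · have : 0 ≤ 4 * C ^ 2 * (A + B) := by positivity
    linarith
  intro F n ε a b hF hn hε ha hb k hk
  obtain ⟨μ, hμd⟩ : ∃ μ, μ = Real.log (1 + α) := ⟨_, rfl⟩
  rw [← hμd] at hμ ⊢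
  -- one step
  have step : ∀ i < n, QQ (a i - b i) + α * ‖a i - b i‖ ^ 2 - K1 * ε ^ 2 ≤ QQ (a (i + 1) - b (i + 1)) ∧
      ‖a (i + 1) - b (i + 1)‖ ≤ C * ‖a i - b i‖ + 2 * ε := by
    intro i hi
    obtain ⟨n1, n2, -⟩ := hN (F i) (hF i) (a i) (b i) (ha.2 i hi.le) (hb.2 i hi.le)
    obtain ⟨r, hr⟩ : ∃ r, r = (a (i + 1) - F i (a i)) - (b (i + 1) - F i (b i)) := ⟨_, rfl⟩
    have hr2 : ‖r‖ ≤ 2 * ε := by
      rw [hr]
      refine (norm_sub_le _ _).trans ?_
      have := ha.1 i hi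
      have := hb.1 i hi
      linarith
    have he : a (i + 1) - b (i + 1) = (F i (a i) - F i (b i)) + r := by
      rw [hr]
      abel
    rw [he]
    have hD := norm_nonneg (a i - b i)
    have hu := norm_nonneg (F i (a i) - F i (b i))
    have hr0 := norm_nonneg r
    refine ⟨?_, ?_⟩
    · have h1 := NWS_add (F i (a i) - F i (b i)) r
      have h2 : ‖F i (a i) - F i (b i)‖ * ‖r‖ ≤ (C * ‖a i - b i‖) * (2 * ε) :=
        mul_le_mul n2 hr2 hr0 (by positivity)
      have h3 : ‖r‖ ^ 2 ≤ 4 * ε ^ 2 := by nlinarith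
      have h4 : 4 * C * ε * ‖a i - b i‖ ≤ c / 8 * ‖a i - b i‖ ^ 2 + 32 * C ^ 2 / c * ε ^ 2 := by
        have h5 : 0 ≤ (c / 8) * (‖a i - b i‖ - 16 * C / c * ε) ^ 2 := by positivity
        have h6 : (c / 8) * (‖a i - b i‖ - 16 * C / c * ε) ^ 2 =
            c / 8 * ‖a i - b i‖ ^ 2 + 32 * C ^ 2 / c * ε ^ 2 - 4 * C * ε * ‖a i - b i‖ := by
          field_simp
          ring
        linarith
      have h7 : α * ‖a i - b i‖ ^ 2 ≤ 3 * c / 8 * ‖a i - b i‖ ^ 2 := mul_le_mul_of_nonneg_right hαc (by positivity)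
      rw [hK1]
      nlinarith
    · refine (norm_add_le _ _).trans ?_
      linarith
  have hseq := NWS_seq α (K1 * ε ^ 2) μ hα0 hα1 (by positivity) hμ n (fun i => QQ (a i - b i)) (fun i => ‖a i - b i‖ ^ 2)
    (fun i _ => NWS_abs _) (fun i hi => (step i hi).1)
  -- the bound for k < n
  have hmain : ∀ k < n, ‖a k - b k‖ ^ 2 ≤ A * (Real.exp (-(μ * (n - k))) * max 0 (QQ (a n - b n)) + Real.exp (-(μ * k)) * max 0 (-QQ (a 0 - b 0))) + B * ε ^ 2 := by
    intro k hk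
    have h1 := hseq k hk
    have h2 : 0 ≤ Real.exp (-(μ * k)) * max 0 (-QQ (a 0 - b 0)) := mul_nonneg (Real.exp_pos _).le (le_max_left _ _)
    have h3 : 0 ≤ α * (Real.exp (-(μ * k)) * max 0 (-QQ (a 0 - b 0))) := mul_nonneg hα0.le h2
    refine le_of_mul_le_mul_left ?_ hα0
    refine h1.trans ?_
    have e : α * (A * (Real.exp (-(μ * (n - k))) * max 0 (QQ (a n - b n)) + Real.exp (-(μ * k)) * max 0 (-QQ (a 0 - b 0))) + B * ε ^ 2) =
        (1 + α) * (Real.exp (-(μ * (n - k))) * max 0 (QQ (a n - b n)) + Real.exp (-(μ * k)) * max 0 (-QQ (a 0 - b 0))) + K1 * ε ^ 2 * (1 + 2 / α) := by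
      rw [hA, hB]
      field_simp
    rw [e]
    linarith
  have hP0 : 0 ≤ Real.exp (-(μ * (n - k))) * max 0 (QQ (a n - b n)) := mul_nonneg (Real.exp_pos _).le (le_max_left _ _)
  have hQ0 : 0 ≤ Real.exp (-(μ * k)) * max 0 (-QQ (a 0 - b 0)) := mul_nonneg (Real.exp_pos _).le (le_max_left _ _)
  have hε2 : 0 ≤ ε ^ 2 := by positivity
  rcases hk.lt_or_eq with hk | hk
  · have h1 := hmain k hk
    have hA' : A ≤ 4 * C ^ 2 * (A + B) + 8 := by nlinarith [mul_nonneg (sub_nonneg.2 hC2) (add_nonneg hA0 hB0)]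
    have hB' : B ≤ 4 * C ^ 2 * (A + B) + 8 := by nlinarith [mul_nonneg (sub_nonneg.2 hC2) (add_nonneg hA0 hB0)]
    have h2 := mul_le_mul_of_nonneg_right hA' hP0
    have h3 := mul_le_mul_of_nonneg_right hA' hQ0
    have h4 := mul_le_mul_of_nonneg_right hB' hε2
    linarith
  · subst hk
    obtain ⟨j, rfl⟩ : ∃ j, k = j + 1 := ⟨k - 1, by omega⟩
    have h1 := hmain j (by omega)
    have h2 := (step j (by omega)).2
    have e1 : ((j + 1 : ℕ) : ℝ) - j = 0 + 1 := by push_cast; ring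
    have e2 : Real.exp (-(μ * (((j + 1 : ℕ) : ℝ) - ((j + 1 : ℕ) : ℝ)))) = 1 := by
      rw [sub_self, mul_zero, neg_zero, Real.exp_zero]
    have e3 := NWS_exp μ α hμ (j : ℝ)
    have e4 := NWS_exp μ α hμ 0
    rw [mul_zero, neg_zero, Real.exp_zero] at e4
    rw [e2, one_mul] at hP0 ⊢
    rw [e1, e3] at h1
    push_cast at h1 hQ0 ⊢
    -- square of the last step
    have h3 : ‖a (j + 1) - b (j + 1)‖ ^ 2 ≤ 2 * C ^ 2 * ‖a j - b j‖ ^ 2 + 8 * ε ^ 2 := by
      have h0 := norm_nonneg (a (j + 1) - b (j + 1))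
      have h4 : ‖a (j + 1) - b (j + 1)‖ ^ 2 ≤ (C * ‖a j - b j‖ + 2 * ε) ^ 2 := pow_le_pow_left₀ h0 h2 2
      nlinarith [sq_nonneg (C * ‖a j - b j‖ - 2 * ε)]
    obtain ⟨E, hE⟩ : ∃ E, E = Real.exp (-(μ * ((j : ℝ) + 1))) * max 0 (-QQ (a 0 - b 0)) := ⟨_, rfl⟩
    obtain ⟨P, hP⟩ : ∃ P, P = max 0 (QQ (a (j + 1) - b (j + 1))) := ⟨_, rfl⟩
    rw [mul_assoc (1 + α), ← hE, ← hP] at h1
    rw [← hE] at hQ0 ⊢
    rw [← hP] at hP0 ⊢
    have g1 : Real.exp (-(μ * (0 + 1))) * P ≤ 2 * P := by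
      have := Real.exp_pos (-(μ * (0 + 1)))
      nlinarith
    have g2 : (1 + α) * E ≤ 2 * E := mul_le_mul_of_nonneg_right (by linarith) hQ0
    have g3 : ‖a j - b j‖ ^ 2 ≤ A * (2 * P + 2 * E) + B * ε ^ 2 :=
      h1.trans (add_le_add (mul_le_mul_of_nonneg_left (add_le_add g1 g2) hA0) le_rfl)
    have g4 : 2 * C ^ 2 * ‖a j - b j‖ ^ 2 ≤ 2 * C ^ 2 * (A * (2 * P + 2 * E) + B * ε ^ 2) :=
      mul_le_mul_of_nonneg_left g3 (by positivity)
    have g5 : 0 ≤ 4 * C ^ 2 * B * (E + P) := by positivity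
    have g6 : 0 ≤ 4 * C ^ 2 * A * ε ^ 2 := by positivity
    have g7 : 0 ≤ 2 * C ^ 2 * B * ε ^ 2 := by positivity
    nlinarith

end

end Pool.Agent.VD
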