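import Pool.Agent.helper84.VD.SpecB3

/-!
# Project VD (MP_07c750_an), block B3, row SGD: the distance in `GEO`
-/

set_option autoImplicit false

open scoped ContDiff Topology InnerProductSpace ENNReal
open MeasureTheory Filter Set

namespace Pool.Agent.VD

noncomputable section

theorem SGD_proof (hDPP : DPP_stmt) (hDLL : DLL_stmt) (hGLF : GLF_stmt) (hGHL : GHL_stmt) (hGNR : GNR_stmt) : SGD_stmt := by
  intro d Γ _ _ K K' k B χ hFd hCt hK'
  obtain ⟨rK, hrK⟩ := hFd.compact.isBounded.exists_norm_le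
  obtain ⟨rK', hrK'⟩ := hK'.isBounded.exists_norm_le
  obtain ⟨m, hm⟩ := exists_nat_ge (max rK rK' + 1)
  have hmK : ∀ x ∈ K, ‖x‖ ≤ m := fun x hx => by
    have := hrK x hx
    have := le_max_left rK rK'
    linarith
  have hmK' : ∀ x ∈ K', ‖x‖ + 1 ≤ m := fun x hx => by
    have := hrK' x hx
    have := le_max_right rK rK'
    linarith
  obtain ⟨-, p2, p3, p4, p5, p6, -, -, p9, p10, -⟩ := hDPP d Γ K χ hFd hCt
  obtain ⟨Cn, hCn, hN⟩ := hGNR d B m
  obtain ⟨r1, hr1⟩ : ∃ r1, r1 = Cn * (Cn * (Cn + 1)) := ⟨_, rfl⟩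
  have hCn0 : 0 < Cn := by linarith
  have hr10 : 0 ≤ r1 := by rw [hr1]; positivity
  obtain ⟨Cl, hCl, hL⟩ := p9 r1
  obtain ⟨Cu, hCu, hU⟩ := p10 m (Cn + 1)
  obtain ⟨CD, hCD⟩ := hDLL d Γ K hFd (m + 1) 1 (r1 + 1)
  obtain ⟨l1, l2, l3, -⟩ := hGLF d Γ hFd.smooth
  obtain ⟨C, hC⟩ : ∃ C, C = 2 + Cu + Cl * (1 + |CD|) := ⟨_, rfl⟩
  have hCD0 := abs_nonneg CD
  have hCl0 : 0 < Cl := by linarith
  have hCC : 0 ≤ Cl * |CD| := mul_nonneg hCl0.le hCD0
  have hC2 : 2 ≤ C := by rw [hC]; nlinarith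
  have hCu' : Cu ≤ C := by rw [hC]; nlinarith
  have hCl' : Cl ≤ C := by rw [hC]; nlinarith
  have hCDl : |CD| * Cl ≤ C := by rw [hC]; nlinarith
  have hC0 : 0 < C := by linarith
  have hCinv : 1 / C ≤ 1 / 2 := one_div_le_one_div_of_le (by norm_num) hC2
  refine ⟨C, by linarith, fun G hG => ?_⟩
  have hN' := hN G hG.met hG.lo hG.bd
  obtain ⟨g1, -⟩ := hGHL d Γ G hG.met hFd.smooth hG.isom
  -- bounds near a point of `SK`
  have near : ∀ z ∈ SK K' G, ∀ p : P d, ‖p - z‖ ≤ 1 → ‖p.1‖ ≤ m ∧ ‖p.2‖ ≤ Cn + 1 := by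
    intro z hz p hp
    have hz1 := hmK' z.1 hz.1
    have hz2 := (hN' z (by linarith)).1
    have hz3 : nrm G z = 1 := hz.2
    rw [hz3, mul_one] at hz2
    have e1 : ‖(p - z).1‖ ≤ 1 := (norm_fst_le _).trans hp
    have e2 : ‖(p - z).2‖ ≤ 1 := (norm_snd_le _).trans hp
    rw [Prod.fst_sub] at e1
    rw [Prod.snd_sub] at e2
    have e3 := norm_add_le (p.1 - z.1) z.1
    have e4 := norm_add_le (p.2 - z.2) z.2
    rw [sub_add_cancel] at e3 e4
    constructor <;> linarith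
  refine ⟨fun p q => ⟨p2 p q, p3 p, p4 p q⟩, p5, p6, ?_, ?_⟩
  · intro z hz p q hp hq
    obtain ⟨a1, a2⟩ := near z hz p hp
    obtain ⟨b1, b2⟩ := near z hz q hq
    exact (hU p q a1 b1 a2 b2).trans (mul_le_mul_of_nonneg_right hCu' (norm_nonneg _))
  · intro z hz p q hp hpq
    obtain ⟨a1, a2⟩ := near z hz p (hp.trans (hCinv.trans (by norm_num)))
    obtain ⟨γ, hγ⟩ := hFd.cover p.1
    have hγm : ‖γ • p.1‖ ≤ m := hmK _ hγ
    have e1 : nrm G p ≤ Cn * (Cn + 1) := (hN' p a1).2.1.trans (mul_le_mul_of_nonneg_left a2 hCn0.le)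
    have e2 : ‖(lft γ p : P d).2‖ ≤ r1 := by
      have h1 := (hN' (lft γ p) hγm).1
      rw [(g1 γ p).2.1] at h1
      rw [hr1]
      exact h1.trans (mul_le_mul_of_nonneg_left e1 hCn0.le)
    have e3 : dP Γ χ (lft γ p) (lft γ q) ≤ 1 / 2 := by
      rw [p6]
      exact hpq.trans hCinv
    have e4 := hL (lft γ p) (lft γ q) hγ e2 e3
    rw [p6] at e4
    have hD0 := p2 p q
    have e5 : Cl * dP Γ χ p q ≤ 1 := by
      calc Cl * dP Γ χ p q ≤ C * (1 / C) := mul_le_mul hCl' hpq hD0 hC0.le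
        _ = 1 := by field_simp
    have e6 : ‖lft γ p - lft γ q‖ ≤ 1 := e4.trans e5
    have e7 : ‖(lft γ p - lft γ q : P d).1‖ ≤ 1 := (norm_fst_le _).trans e6
    have e8 : ‖(lft γ p - lft γ q : P d).2‖ ≤ 1 := (norm_snd_le _).trans e6
    rw [Prod.fst_sub] at e7
    rw [Prod.snd_sub] at e8
    have e9 : ‖(lft γ q : P d).1‖ ≤ m + 1 := by
      have h1 := norm_sub_norm_le (lft γ q : P d).1 (lft γ p : P d).1
      rw [norm_sub_rev] at h1
      have h2 : ‖(lft γ p : P d).1‖ ≤ m := hγm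
      linarith
    have e10 : ‖(lft γ q : P d).2‖ ≤ r1 + 1 := by
      have h1 := norm_sub_norm_le (lft γ q : P d).2 (lft γ p : P d).2
      rw [norm_sub_rev] at h1
      linarith
    have hex : ∃ x : V d, ‖x‖ ≤ ((m + 1 : ℕ) : ℝ) ∧ ‖γ⁻¹ • x‖ ≤ ((m + 1 : ℕ) : ℝ) := by
      refine ⟨γ • p.1, ?_, ?_⟩
      · push_cast
        linarith
      · rw [inv_smul_smul]
        push_cast
        linarith
    obtain ⟨hD, -⟩ := hCD γ⁻¹ hex
    have hconv : Convex ℝ (Metric.closedBall (0 : V d) ((m : ℝ) + 1) ×ˢ Metric.closedBall (0 : V d) (r1 + 1)) :=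
      (convex_closedBall _ _).prod (convex_closedBall _ _)
    have hmv := hconv.norm_image_sub_le_of_norm_fderiv_le (f := (lft γ⁻¹ : P d → P d)) (C := |CD|) (x := lft γ q) (y := lft γ p)
      (fun u _ => ((l3 γ⁻¹).differentiable (by simp)).differentiableAt) (by
        intro u hu
        have hu1 : ‖u.1‖ ≤ ((m + 1 : ℕ) : ℝ) := by
          have := mem_closedBall_zero_iff.1 hu.1
          push_cast
          exact this
        have h1 := hD u hu1 (mem_closedBall_zero_iff.1 hu.2)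
        rw [norm_iteratedFDeriv_one] at h1
        exact h1.trans (le_abs_self _))
      ⟨mem_closedBall_zero_iff.2 e9, mem_closedBall_zero_iff.2 e10⟩
      ⟨mem_closedBall_zero_iff.2 (by have h2 : ‖(lft γ p : P d).1‖ ≤ m := hγm; linarith), mem_closedBall_zero_iff.2 (by linarith)⟩
    rw [← l2, ← l2, inv_mul_cancel, l1, l1] at hmv
    calc ‖p - q‖ ≤ |CD| * ‖lft γ p - lft γ q‖ := hmv
      _ ≤ |CD| * (Cl * dP Γ χ p q) := mul_le_mul_of_nonneg_left e4 hCD0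
      _ = (|CD| * Cl) * dP Γ χ p q := by ring
      _ ≤ C * dP Γ χ p q := mul_le_mul_of_nonneg_right hCDl hD0

end

end Pool.Agent.VD
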