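import Pool.Agent.helper99.VD.SpecV

/-!
# Project VD (MP_07c750_an), block U, part 2, row USP: geodesics move
-/

set_option autoImplicit false

open scoped ContDiff Topology InnerProductSpace ENNReal
open MeasureTheory Filter Set

namespace Pool.Agent.VD

noncomputable section

theorem USP_proof (hUTA : UTA_stmt) (hUVL : UVL_stmt) (hUNK : UNK_stmt) (hDVV : DVV_stmt) (hGEQ : GEQ_stmt) (hGHL : GHL_stmt) :
    USP_stmt := by
  intro d Γ _ _ K k B χ hFd hCt
  obtain ⟨n1, C0, c1, m, -, -, -, n2, -, -⟩ := hUNK d Γ K χ hFd hCt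
  obtain ⟨C1, hC1, hV⟩ := hUVL d Γ K k B hFd m
  obtain ⟨C2, hC2, hT⟩ := hUTA d Γ K k B hFd m
  obtain ⟨-, -, -, -, -, hinv, -⟩ := hDVV d Γ K χ hFd hCt
  have hC1' : 0 < C1 := by linarith
  have hC2' : 0 < C2 := by linarith
  have hCC : 0 < 2 * C1 * C2 := by positivity
  refine ⟨2 * C1, min (1 / 8) (1 / (2 * C1 * C2)), by linarith, lt_min (by norm_num) (by positivity), min_le_left _ _, ?_⟩
  intro G Φ hG hΦ p u hp hu
  -- the case of a base point in `K`
  have key : ∀ q : P d, q.1 ∈ K → |Ep G q| ≤ 1 / 8 → |u| ≤ 2 * C1 * dV Γ χ q.1 (Φ u q).1 := by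
    intro q hq hE
    obtain ⟨v1, v2, -⟩ := hV G hG
    have hqt : q.1 ∈ Metric.cthickening 1 K := Metric.self_subset_cthickening K hq
    have hqm : ‖q.1‖ ≤ m := n2 _ hqt
    have hn : nrm G q ≤ 3 / 2 := (v1 q).2.2.2.1 hE
    have hu8 : |u| ≤ 1 / 8 := hu.trans (min_le_left _ _)
    have huC : |u| ≤ 1 / (2 * C1 * C2) := hu.trans (min_le_right _ _)
    obtain ⟨t1, t2⟩ := hT G Φ hG hΦ q u hqm hn (by linarith)
    have hvel := (v2 q hqm hE).1
    have hu0 := abs_nonneg u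
    have huC2 : 2 * C1 * C2 * |u| ≤ 1 := by
      rw [le_div_iff₀ hCC] at huC
      linarith
    have hCu : C2 * |u| ≤ 1 / 2 := by nlinarith [mul_nonneg hC2'.le hu0]
    have hmem : (Φ u q).1 ∈ Metric.cthickening 1 K := by
      refine Metric.mem_cthickening_of_dist_le _ q.1 1 K hq ?_
      rw [dist_eq_norm]
      linarith
    have h1 := n1 q.1 (Φ u q).1 hqt hmem
    rw [norm_sub_rev] at h1
    have h2 : ‖u • vel G q‖ ≤ ‖(Φ u q).1 - q.1‖ + ‖(Φ u q).1 - q.1 - u • vel G q‖ := by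
      have e : u • vel G q = ((Φ u q).1 - q.1) - ((Φ u q).1 - q.1 - u • vel G q) := by abel
      calc ‖u • vel G q‖ = ‖((Φ u q).1 - q.1) - ((Φ u q).1 - q.1 - u • vel G q)‖ := by rw [← e]
        _ ≤ _ := norm_sub_le _ _
    rw [norm_smul, Real.norm_eq_abs] at h2
    have h3 : |u| * (1 / C1) ≤ |u| * ‖vel G q‖ := mul_le_mul_of_nonneg_left hvel hu0
    have h4 : C2 * u ^ 2 = C2 * |u| * |u| := by
      rw [← sq_abs u]
      ring
    have h5 : C1 * (C2 * |u| * |u|) ≤ |u| / 2 := by nlinarith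
    have h6 : C1 * (|u| * (1 / C1)) = |u| := by field_simp
    have h7 : C1 * (|u| * (1 / C1)) ≤ C1 * (dV Γ χ q.1 (Φ u q).1 + C2 * |u| * |u|) := by
      refine mul_le_mul_of_nonneg_left ?_ hC1'.le
      rw [h4] at t1
      linarith
    rw [h6] at h7
    linarith
  obtain ⟨γ, hγ⟩ := hFd.cover p.1
  obtain ⟨g1, -⟩ := hGHL d Γ G hG.met hFd.smooth hG.isom
  have hE : Ep G (lft γ p) = Ep G p := by
    unfold Ep
    rw [(g1 γ p).1]
  have h1 := key (lft γ p) hγ (by rw [hE]; exact hp.trans (min_le_left _ _))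
  rw [hGEQ d Γ G Φ hG.met hFd.smooth hG.isom hΦ γ u p] at h1
  have h2 : dV Γ χ (lft γ p : P d).1 (lft γ (Φ u p) : P d).1 = dV Γ χ p.1 (Φ u p).1 := hinv γ p.1 (Φ u p).1
  rwa [h2] at h1

end

end Pool.Agent.VD
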